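import Pool.Agent.H17.BO.TargetsC

/-!
# MP_70ba79_ag: row ANN of the board `bo_modules`: functionals which vanish on the multiples of a
linear form
-/

set_option autoImplicit false

namespace Pool.Agent.H68.BO

open MvPolynomial SC Pool.Agent.H27.LV Pool.Agent.H17.VG Pool.Agent.H17.BO

section

variable {k : Type} [Field k]

private lemma fnl_C_mul {n d : ℕ} (y : Mon (n + 1) d → k) (a : k)
    (G : MvPolynomial (Fin (n + 1)) k) : fnl y (C a * G) = a * fnl y G := by
  unfold fnl
  rw [Finset.mul_sum]
  refine Finset.sum_congr rfl fun M _ => ?_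
  rw [coeff_C_mul]
  ring

private lemma fnl_sum {n d : ℕ} (y : Mon (n + 1) d → k) {ι : Type} (s : Finset ι)
    (G : ι → MvPolynomial (Fin (n + 1)) k) : fnl y (∑ i ∈ s, G i) = ∑ i ∈ s, fnl y (G i) := by
  unfold fnl
  rw [Finset.sum_comm]
  refine Finset.sum_congr rfl fun M _ => ?_
  rw [coeff_sum, Finset.mul_sum]

private lemma fnl_mono {n d : ℕ} (y : Mon (n + 1) d → k) (M : Mon (n + 1) d) :
    fnl y (mono k M.1) = y M := by
  unfold fnl
  simp only [coeff_mono]
  rw [Finset.sum_eq_single M (by
    intro b _ hb
    rw [if_neg (fun h => hb (Subtype.ext h.symm)), mul_zero]) (by simp)]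
  simp

private lemma fnl_lin_mul {n d : ℕ} (y : Mon (n + 1) d → k) (ζ : Fin (n + 1) → k)
    (G : MvPolynomial (Fin (n + 1)) k) : fnl y (lin ζ * G) = ∑ t, ζ t * fnl y (X t * G) := by
  unfold lin
  rw [Finset.sum_mul, fnl_sum]
  refine Finset.sum_congr rfl fun t _ => ?_
  rw [mul_assoc, fnl_C_mul]

/-- a functional which vanishes on the multiples of the variables -/
private lemma lam_zero {e : ℕ} {lam : Mon 3 (e + 1) → k}
    (h : ∀ t, ∀ R : Mon 3 e → k, fnl lam (X t * frm R) = 0) (M : Mon 3 (e + 1)) : lam M = 0 := by
  obtain ⟨t, ht⟩ : ∃ t, M.1 t ≠ 0 := by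
    by_contra hcon
    push Not at hcon
    have h1 := M.2
    rw [Finset.sum_eq_zero fun t _ => hcon t] at h1
    omega
  obtain ⟨M', hM'⟩ : ∃ M' : Fin 3 → ℕ, M' = M.1 - Pi.single t 1 := ⟨_, rfl⟩
  have hsum : ∑ i, M' i = e := by
    have h1 : ∑ i, (M' i + (Pi.single t 1 : Fin 3 → ℕ) i) = e + 1 := by
      rw [← M.2]
      refine Finset.sum_congr rfl fun i _ => ?_
      rw [hM', Pi.sub_apply]
      by_cases hi : i = t
      · subst hi
        rw [Pi.single_eq_same]
        omega
      · rw [Pi.single_eq_of_ne hi]
        omega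
    rw [Finset.sum_add_distrib, Finset.sum_pi_single'] at h1
    simp only [Finset.mem_univ, if_true] at h1
    omega
  have h1 := h t (fun f : Mon 3 e => coeff (fs f.1) (mono k M'))
  rw [frm_coeff (isHomogeneous_mono (K := k) (⟨M', hsum⟩ : Mon 3 e))] at h1
  have e2 : Finsupp.single t 1 + fs M' = fs M.1 := by
    ext i
    unfold fs
    rw [Finsupp.add_apply, Finsupp.equivFunOnFinite_symm_apply_apply,
      Finsupp.equivFunOnFinite_symm_apply_apply, hM', Pi.sub_apply]
    by_cases hi : i = t
    · subst hi
      rw [Finsupp.single_eq_same, Pi.single_eq_same]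
      omega
    · rw [Finsupp.single_eq_of_ne hi, Pi.single_eq_of_ne hi]
      omega
  have e1 : (X t : MvPolynomial (Fin 3) k) * mono k M' = mono k M.1 := by
    unfold mono
    rw [X, monomial_mul, one_mul, e2]
  rw [e1, fnl_mono] at h1
  exact h1

/-- the functional with the coefficients `a` -/
private def dl (a : Fin 3 → k) : Module.Dual k (Fin 3 → k) where
  toFun ζ := ∑ t, a t * ζ t
  map_add' ζ ζ' := by
    rw [← Finset.sum_add_distrib]
    exact Finset.sum_congr rfl fun t _ => by rw [Pi.add_apply, mul_add]
  map_smul' c ζ := by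
    rw [RingHom.id_apply, smul_eq_mul, Finset.mul_sum]
    exact Finset.sum_congr rfl fun t _ => by rw [Pi.smul_apply, smul_eq_mul]; ring

private lemma dl_apply (a ζ : Fin 3 → k) : dl a ζ = ∑ t, a t * ζ t := rfl

end

open Matrix in
theorem pf_ANN (hLSL : T_LSL) (hEVX : T_EVX) : T_ANN := by
  classical
  intro k L _ _ _ e lam m hm h
  obtain ⟨N, w, c, hw, -, hwA, hmw⟩ := hLSL k L (Fin 3) (Mon 3 e → k)
    (fun R t => fnl lam (X t * frm R)) m (fun R => by
      rw [← h R]
      exact Finset.sum_congr rfl fun t _ => mul_comm _ _)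
  have hN3 : N ≤ 3 := by
    have h1 := hw.fintype_card_le_finrank
    simpa using h1
  have hker : ∀ R : Mon 3 e → k, ∀ j,
      w j ∈ LinearMap.ker (dl (fun t => fnl lam (X t * frm R))) := by
    intro R j
    rw [LinearMap.mem_ker, dl_apply]
    exact hwA j R
  obtain rfl | rfl | rfl | rfl : N = 0 ∨ N = 1 ∨ N = 2 ∨ N = 3 := by omega
  · exfalso
    apply hm
    funext t
    rw [hmw t]
    simp
  · right
    left
    refine ⟨w 0, c 0, fun t => ?_⟩
    rw [hmw t]
    simp
  · -- the span of two vectors
    set z : Fin 3 → k := crossProduct (w 0) (w 1) with hz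
    have hw2 : LinearIndependent k ![w 0, w 1] := by
      have e1 : ![w 0, w 1] = w := by
        funext i
        fin_cases i <;> rfl
      rw [e1]
      exact hw
    have hz0 : z ≠ 0 := crossProduct_ne_zero_iff_linearIndependent.2 hw2
    have hwz : ∀ j, ∑ t, z t * w j t = 0 := by
      intro j
      have h1 : ∀ j, w j ⬝ᵥ z = 0 := by
        intro j
        fin_cases j
        · exact dot_self_cross (w 0) (w 1)
        · exact dot_cross_self (w 0) (w 1)
      have h2 := h1 j
      unfold dotProduct at h2
      rw [← h2]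
      exact Finset.sum_congr rfl fun t _ => mul_comm _ _
    have hspan : Submodule.span k (Set.range w) = LinearMap.ker (dl z) := by
      apply Submodule.eq_of_le_of_finrank_eq
      · rw [Submodule.span_le]
        rintro _ ⟨j, rfl⟩
        rw [SetLike.mem_coe, LinearMap.mem_ker, dl_apply]
        exact hwz j
      · rw [finrank_span_eq_card hw, Fintype.card_fin]
        have hne : dl z ≠ 0 := by
          intro h0
          apply hz0
          funext t
          have h1 := LinearMap.congr_fun h0 (Pi.single t 1)
          rw [dl_apply] at h1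
          simpa [Pi.single_apply] using h1
        have h1 := Module.Dual.finrank_ker_add_one_of_ne_zero hne
        rw [Module.finrank_fin_fun] at h1
        omega
    obtain ⟨a, ha⟩ := hEVX k 2 e z hz0 lam (by
      intro ζ hζ R hR
      rw [fnl_lin_mul]
      have h1 : ζ ∈ Submodule.span k (Set.range w) := by
        rw [hspan, LinearMap.mem_ker, dl_apply, ← hζ]
        exact Finset.sum_congr rfl fun t _ => mul_comm _ _
      have h2 : Submodule.span k (Set.range w) ≤
          LinearMap.ker (dl (fun t => fnl lam (X t * frm fun f : Mon 3 e => coeff (fs f.1) R))) :=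
        Submodule.span_le.2 (by
          rintro _ ⟨j, rfl⟩
          exact hker _ j)
      have h3 := h2 h1
      rw [LinearMap.mem_ker, dl_apply, frm_coeff hR] at h3
      rw [← h3]
      exact Finset.sum_congr rfl fun t _ => mul_comm _ _)
    by_cases ha0 : a = 0
    · left
      intro M
      have h1 := ha (mono k M.1) (isHomogeneous_mono (K := k) M)
      rw [fnl_mono, ha0, zero_mul] at h1
      exact h1
    · right
      right
      refine ⟨z, a, hz0, ha0, ?_, fun Q => ha (frm Q) (frm_homog Q)⟩
      have h1 : ∀ j, ∑ t, algebraMap k L (w j t) * algebraMap k L (z t) = 0 := by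
        intro j
        have h2 := congrArg (algebraMap k L) (hwz j)
        rw [map_sum, map_zero] at h2
        rw [← h2]
        exact Finset.sum_congr rfl fun t _ => by rw [map_mul, mul_comm]
      calc ∑ t, m t * algebraMap k L (z t)
          = ∑ t, ∑ j, c j * (algebraMap k L (w j t) * algebraMap k L (z t)) := by
            refine Finset.sum_congr rfl fun t _ => ?_
            rw [hmw t, Finset.sum_mul]
            exact Finset.sum_congr rfl fun j _ => by ring
        _ = ∑ j, c j * ∑ t, algebraMap k L (w j t) * algebraMap k L (z t) := by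
            rw [Finset.sum_comm]
            exact Finset.sum_congr rfl fun j _ => by rw [Finset.mul_sum]
        _ = 0 := Finset.sum_eq_zero fun j _ => by rw [h1 j, mul_zero]
  · -- all vectors
    left
    refine lam_zero fun t R => ?_
    have hspan : Submodule.span k (Set.range w) = ⊤ :=
      hw.span_eq_top_of_card_eq_finrank (by simp)
    have h2 : Submodule.span k (Set.range w) ≤
        LinearMap.ker (dl (fun t => fnl lam (X t * frm R))) :=
      Submodule.span_le.2 (by
        rintro _ ⟨j, rfl⟩
        exact hker R j)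
    rw [hspan] at h2
    have h3 := h2 (Submodule.mem_top (x := (Pi.single t 1 : Fin 3 → k)))
    rw [LinearMap.mem_ker, dl_apply] at h3
    simpa [Pi.single_apply] using h3

end Pool.Agent.H68.BO
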